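import Pool.Agent.Zir.Main
import Pool.Agent.Zir.TypesADE

/-! # Zircon Bruhat intervals in simply laced finite types are lower intervals (MP_1d6543_co, Q1) -/

namespace Pool.Agent.Results.MP_1d6543_co.ZirconLower

open Pool.Agent.Zir

universe a b

section

variable {B : Type a} {W : Type b} [Group W] {M : CoxeterMatrix B}

lemma finite_At [SL M] (cs : CoxeterSystem M W) [Finite B] (u : W) : Finite (At cs u) := by
  have h1 : {w : W | cs.length w = cs.length u + 1}.Finite := by
    refine ((List.finite_length_eq B (cs.length u + 1)).image cs.wordProd).subset ?_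
    intro w hw
    obtain ⟨ω, h2, h3⟩ := cs.exists_isReduced w
    refine ⟨ω, ?_, h3.symm⟩
    have h4 : cs.length w = cs.length u + 1 := hw
    show ω.length = cs.length u + 1
    rw [← h4, h3]
    exact h2.symm
  have := h1.to_subtype
  refine Finite.of_injective
    (fun b : At cs u => (⟨rf cs b.1 * u, b.2.2.2⟩ : {w : W | cs.length w = cs.length u + 1})) ?_
  intro b c h
  have h2 : rf cs b.1 * u = rf cs c.1 * u := congrArg Subtype.val h
  exact Subtype.ext (rf_inj b.2.1 c.2.1 (mul_right_cancel h2))

lemma finite_B [SL M] (cs : CoxeterSystem M W) [Finite W] : Finite B := by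
  refine Finite.of_injective (fun i : B => cs.simple i) ?_
  intro i j h
  have h2 : rf cs (e i) = rf cs (e j) := by rw [rf_e, rf_e]; exact h
  have h3 := rf_inj (pr_e i) (pr_e j) h2
  exact Finsupp.single_left_injective (by norm_num) h3

theorem core [SL M] (cs : CoxeterSystem M W) [RB cs] [Finite B] (u w : W)
    (huw : Bruhat.of cs u < Bruhat.of cs w)
    (hz : IsZircon (Set.Icc (Bruhat.of cs u) (Bruhat.of cs w))) :
    ∃ (B' W' : Type a) (_ : Finite B') (_ : Group W') (M' : CoxeterMatrix B')
      (cs' : CoxeterSystem M' W') (x : W'),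
      (∀ i j, M' i j = 1 ∨ M' i j = 2 ∨ M' i j = 3) ∧
      Nonempty (Set.Icc (Bruhat.of cs u) (Bruhat.of cs w) ≃o
        Set.Icc (Bruhat.of cs' 1) (Bruhat.of cs' x)) :=
  ⟨At cs u, (MA cs u).Group, finite_At cs u, inferInstance, MA cs u, csA cs u, phi cs u w,
    SL.prop, main cs u w huw.le hz⟩

end

/-- If `(W, S)` is of type `A`, `D` or `E` (or any finite simply laced Coxeter system), `u < w`
and the Bruhat interval `[u, w]` is a zircon, then `[u, w]` is isomorphic to a lower Bruhat
interval `[1, x]` of a Coxeter system (simply laced and of finite rank). -/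
theorem result {B : Type a} {W : Type b} [Group W] {M : CoxeterMatrix B}
    (cs : CoxeterSystem M W)
    (hM : IsTypeADE M ∨ (Finite W ∧ ∀ i j, M i j = 1 ∨ M i j = 2 ∨ M i j = 3))
    (u w : W) (huw : Bruhat.of cs u < Bruhat.of cs w)
    (hz : IsZircon (Set.Icc (Bruhat.of cs u) (Bruhat.of cs w))) :
    ∃ (B' W' : Type a) (_ : Finite B') (_ : Group W') (M' : CoxeterMatrix B')
      (cs' : CoxeterSystem M' W') (x : W'),
      (∀ i j, M' i j = 1 ∨ M' i j = 2 ∨ M' i j = 3) ∧
      Nonempty (Set.Icc (Bruhat.of cs u) (Bruhat.of cs w) ≃o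
        Set.Icc (Bruhat.of cs' 1) (Bruhat.of cs' x)) := by
  rcases hM with hM | ⟨hW, hM⟩
  · have := hM.sl
    have := hM.finite
    have := hM.rb cs
    exact core cs u w huw hz
  · have : SL M := ⟨hM⟩
    have := finite_B cs
    have : RB cs := rb_of_finite
    exact core cs u w huw hz

end Pool.Agent.Results.MP_1d6543_co.ZirconLower
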